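import Mathlib

/-!
A 12-vertex graph whose vertex set is partitioned into the four triangles
{0,1,2}, {3,4,5}, {6,7,8}, {9,10,11}, with independence number 4, chromatic number 4,
2-fold chromatic number 6 and 3-fold chromatic number 9.
-/

set_option autoImplicit false

namespace Pool.Agent.MP_6b5009_co

/-- The edge list of the graph. -/
def edgeList : List (Fin 12 × Fin 12) :=
  [(0,1),(0,2),(1,2),(3,4),(3,5),(4,5),(6,7),(6,8),(7,8),(9,10),(9,11),(10,11),
   (0,8),(0,10),(1,7),(1,11),(2,3),(2,6),(2,9),(3,7),(3,11),(4,8),(4,9),(5,6),(5,10)]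

/-- The graph. -/
def G : SimpleGraph (Fin 12) where
  Adj u v := (u, v) ∈ edgeList ∨ (v, u) ∈ edgeList
  symm := ⟨fun _ _ h => h.symm⟩
  loopless := ⟨by decide⟩

instance : DecidableRel G.Adj := fun u v =>
  inferInstanceAs (Decidable ((u, v) ∈ edgeList ∨ (v, u) ∈ edgeList))

/-- A 2-fold colouring with 6 colours. -/
def col2 : Fin 12 → Finset (Fin 6) :=
  ![{0,3},{2,4},{1,5},{2,4},{1,3},{0,5},{3,4},{0,1},{2,5},{0,2},{1,4},{3,5}]

/-- A 3-fold colouring with 9 colours. -/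
def col3 : Fin 12 → Finset (Fin 9) :=
  ![{3,4,7},{0,5,8},{1,2,6},{0,3,7},{2,4,8},{1,5,6},{3,7,8},{1,2,4},{0,5,6},{3,5,7},{0,2,8},{1,4,6}]

theorem col2_card : ∀ v, (col2 v).card = 2 := by decide
theorem col2_disj : ∀ u v, G.Adj u v → Disjoint (col2 u) (col2 v) := by decide
theorem col3_card : ∀ v, (col3 v).card = 2 + 1 := by decide
theorem col3_disj : ∀ u v, G.Adj u v → Disjoint (col3 u) (col3 v) := by decide

set_option synthInstance.maxSize 100000 in
set_option synthInstance.maxHeartbeats 4000000 in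
set_option maxRecDepth 100000 in
theorem no3 : ∀ x0 x1 : Fin 3, x0 ≠ x1 → ∀ x2 : Fin 3, x0 ≠ x2 → x1 ≠ x2 →
    ∀ x3 : Fin 3, x2 ≠ x3 → ∀ x6 : Fin 3, x2 ≠ x6 → ∀ x7 : Fin 3, x1 ≠ x7 → x3 ≠ x7 → x6 ≠ x7 →
    ∀ x8 : Fin 3, x0 ≠ x8 → x6 ≠ x8 → x7 ≠ x8 → ∀ x4 : Fin 3, x3 ≠ x4 → x4 ≠ x8 →
    ∀ x5 : Fin 3, x3 ≠ x5 → x4 ≠ x5 → x5 ≠ x6 → ∀ x9 : Fin 3, x2 ≠ x9 → x4 ≠ x9 →
    ∀ x10 : Fin 3, x0 ≠ x10 → x5 ≠ x10 → x9 ≠ x10 →
    ∀ x11 : Fin 3, x1 ≠ x11 → x3 ≠ x11 → x9 ≠ x11 → x10 ≠ x11 → False := by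
  decide +kernel

theorem not_colorable : ¬ G.Colorable 3 := by
  rintro ⟨C⟩
  have h : ∀ u v, G.Adj u v → C u ≠ C v := fun u v huv => C.valid huv
  exact no3 (C 0) (C 1) (h _ _ (by decide)) (C 2) (h _ _ (by decide)) (h _ _ (by decide))
    (C 3) (h _ _ (by decide)) (C 6) (h _ _ (by decide)) (C 7) (h _ _ (by decide))
    (h _ _ (by decide)) (h _ _ (by decide)) (C 8) (h _ _ (by decide)) (h _ _ (by decide))
    (h _ _ (by decide)) (C 4) (h _ _ (by decide)) (h _ _ (by decide)) (C 5) (h _ _ (by decide))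
    (h _ _ (by decide)) (h _ _ (by decide)) (C 9) (h _ _ (by decide)) (h _ _ (by decide))
    (C 10) (h _ _ (by decide)) (h _ _ (by decide)) (h _ _ (by decide))
    (C 11) (h _ _ (by decide)) (h _ _ (by decide)) (h _ _ (by decide)) (h _ _ (by decide))

theorem four_le_chromaticNumber : (4 : ℕ∞) ≤ G.chromaticNumber := by
  by_contra hlt
  have h3 : G.chromaticNumber ≤ (3 : ℕ) := by
    have h : G.chromaticNumber < (3 : ℕ∞) + 1 := by
      rw [not_le] at hlt
      exact hlt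
    exact Order.le_of_lt_add_one h
  exact not_colorable (SimpleGraph.chromaticNumber_le_iff_colorable.mp h3)

/-- The triangle containing a vertex. -/
def tri (v : Fin 12) : Fin 4 := ⟨v.val / 3, by omega⟩

theorem adj_of_tri_eq : ∀ u v : Fin 12, tri u = tri v → u ≠ v → G.Adj u v := by decide

/-- An independent set has at most 4 vertices. -/
theorem indep_card_le (s : Finset (Fin 12)) (hs : ∀ u v, u ∈ s → v ∈ s → ¬ G.Adj u v) :
    s.card ≤ 4 := by
  have hinj : Set.InjOn tri s := by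
    intro u hu v hv huv
    by_contra hne
    exact hs u v hu hv (adj_of_tri_eq u v huv hne)
  have := Finset.card_le_card_of_injOn (t := (Finset.univ : Finset (Fin 4))) _
    (fun _ _ => Finset.mem_coe.mpr (Finset.mem_univ _)) hinj
  simpa using this

theorem indepNum_eq : G.indepNum = 4 := by
  apply le_antisymm
  · obtain ⟨s, hs⟩ := G.exists_isNIndepSet_indepNum
    rw [← hs.card_eq]
    apply indep_card_le
    intro u v hu hv hadj
    exact hs.isIndepSet (Finset.mem_coe.mpr hu) (Finset.mem_coe.mpr hv) hadj.ne hadj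
  · have hs : G.IsIndepSet (({0, 5, 7, 9} : Finset (Fin 12)) : Set (Fin 12)) := by
      intro u hu v hv _
      have key : ∀ u ∈ ({0, 5, 7, 9} : Finset (Fin 12)), ∀ v ∈ ({0, 5, 7, 9} : Finset (Fin 12)),
          ¬ G.Adj u v := by decide
      exact key u (Finset.mem_coe.mp hu) v (Finset.mem_coe.mp hv)
    have := hs.card_le_indepNum
    simpa using this

theorem six_le (m : ℕ) (g : Fin 12 → Finset (Fin m)) (hc : ∀ v, (g v).card = 2)
    (hd : ∀ u v, G.Adj u v → Disjoint (g u) (g v)) : 6 ≤ m := by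
  have h01 := hd 0 1 (by decide)
  have h02 := hd 0 2 (by decide)
  have h12 := hd 1 2 (by decide)
  have hcard : (g 0 ∪ g 1 ∪ g 2).card = 6 := by
    rw [Finset.card_union_of_disjoint (Finset.disjoint_union_left.mpr ⟨h02, h12⟩),
      Finset.card_union_of_disjoint h01, hc, hc, hc]
  have := Finset.card_le_univ (g 0 ∪ g 1 ∪ g 2)
  rw [hcard, Fintype.card_fin] at this
  exact this

theorem chi2_eq : sInf {m : ℕ | ∃ g : Fin 12 → Finset (Fin m),
    (∀ v, (g v).card = 2) ∧ ∀ u v, G.Adj u v → Disjoint (g u) (g v)} = 6 := by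
  have hmem : 6 ∈ {m : ℕ | ∃ g : Fin 12 → Finset (Fin m),
      (∀ v, (g v).card = 2) ∧ ∀ u v, G.Adj u v → Disjoint (g u) (g v)} :=
    ⟨col2, col2_card, col2_disj⟩
  apply le_antisymm (Nat.sInf_le hmem)
  obtain ⟨g, hc, hd⟩ := Nat.sInf_mem (⟨6, hmem⟩ : Set.Nonempty _)
  exact six_le _ g hc hd

theorem chi3_le : sInf {m : ℕ | ∃ g : Fin 12 → Finset (Fin m),
    (∀ v, (g v).card = 2 + 1) ∧ ∀ u v, G.Adj u v → Disjoint (g u) (g v)} ≤ 9 :=
  Nat.sInf_le ⟨col3, col3_card, col3_disj⟩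

/-- In a triangle 2-fold coloured with six colours, every colour appears. -/
theorem tri_cover (a b c : Finset (Fin 6)) (ha : a.card = 2) (hb : b.card = 2) (hc : c.card = 2)
    (hab : Disjoint a b) (hac : Disjoint a c) (hbc : Disjoint b c) (x : Fin 6) :
    x ∈ a ∨ x ∈ b ∨ x ∈ c := by
  have hcard : (a ∪ b ∪ c).card = Fintype.card (Fin 6) := by
    rw [Finset.card_union_of_disjoint (Finset.disjoint_union_left.mpr ⟨hac, hbc⟩),
      Finset.card_union_of_disjoint hab, ha, hb, hc]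
    rfl
  have huniv := Finset.eq_univ_of_card _ hcard
  have hx : x ∈ a ∪ b ∪ c := huniv ▸ Finset.mem_univ x
  simpa [or_assoc] using hx

theorem saturated (m : ℕ) (hm : m = 6) (f : Fin 12 → Finset (Fin m)) (hc : ∀ v, (f v).card = 2)
    (hd : ∀ u v, G.Adj u v → Disjoint (f u) (f v)) (c : Fin m) :
    (Finset.univ.filter (fun v => c ∈ f v)).card = G.indepNum := by
  subst hm
  rw [indepNum_eq]
  apply le_antisymm
  · apply indep_card_le
    intro u v hu hv hadj
    exact Finset.disjoint_left.mp (hd u v hadj) (Finset.mem_filter.mp hu).2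
      (Finset.mem_filter.mp hv).2
  · have hsurj : Set.SurjOn tri
        (Finset.univ.filter (fun v => c ∈ f v) : Finset (Fin 12))
        (Finset.univ : Finset (Fin 4)) := by
      intro t _
      have T : ∀ a b d : Fin 12, G.Adj a b → G.Adj a d → G.Adj b d →
          c ∈ f a ∨ c ∈ f b ∨ c ∈ f d := fun a b d h1 h2 h3 =>
        tri_cover _ _ _ (hc a) (hc b) (hc d) (hd _ _ h1) (hd _ _ h2) (hd _ _ h3) c
      have M : ∀ v : Fin 12, c ∈ f v →
          v ∈ ((Finset.univ.filter (fun v => c ∈ f v) : Finset (Fin 12)) : Set (Fin 12)) :=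
        fun v hv => Finset.mem_coe.mpr (Finset.mem_filter.mpr ⟨Finset.mem_univ _, hv⟩)
      fin_cases t
      · rcases T 0 1 2 (by decide) (by decide) (by decide) with h | h | h
        exacts [⟨_, M _ h, rfl⟩, ⟨_, M _ h, rfl⟩, ⟨_, M _ h, rfl⟩]
      · rcases T 3 4 5 (by decide) (by decide) (by decide) with h | h | h
        exacts [⟨_, M _ h, rfl⟩, ⟨_, M _ h, rfl⟩, ⟨_, M _ h, rfl⟩]
      · rcases T 6 7 8 (by decide) (by decide) (by decide) with h | h | h
        exacts [⟨_, M _ h, rfl⟩, ⟨_, M _ h, rfl⟩, ⟨_, M _ h, rfl⟩]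
      · rcases T 9 10 11 (by decide) (by decide) (by decide) with h | h | h
        exacts [⟨_, M _ h, rfl⟩, ⟨_, M _ h, rfl⟩, ⟨_, M _ h, rfl⟩]
    have := Finset.card_le_card_of_surjOn _ hsurj
    simpa using this

end Pool.Agent.MP_6b5009_co
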