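import Mathlib

/-! The parity argument of Ky Fan on the subdivided cross-polytope and the chromatic number of
Kneser graphs. -/

set_option autoImplicit false

open Finset

namespace Pool.Agent.MP_6b5009_co.Kn

/-- signed numbers -/
abbrev E := ℕ × Bool

/-- change of sign -/
def fl : E ↪ E := ⟨fun e => (e.1, !e.2), fun a b h => by
  obtain ⟨h1, h2⟩ := Prod.mk.inj h
  exact Prod.ext h1 (Bool.not_inj h2)⟩

theorem fl_fl (e : E) : fl (fl e) = e := Prod.ext rfl (Bool.not_not e.2)

theorem mem_fl {X : Finset E} {e : E} : e ∈ X.map fl ↔ fl e ∈ X := by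
  rw [← mem_map' fl, map_map]
  have : fl.trans fl = Function.Embedding.refl E := Function.Embedding.ext fl_fl
  rw [this, map_refl]

theorem two (a : ZMod 2) : a + a = 0 := CharTwo.add_self_eq_zero a

/-- the coboundary -/
def dl (φ : Finset E → ZMod 2) (T : Finset E) : ZMod 2 := ∑ t ∈ T, φ (T.erase t)

theorem dl_insert (φ : Finset E → ZMod 2) {l : E} {T : Finset E} (h : l ∉ T) :
    dl φ (insert l T) = φ T + dl (fun U => φ (insert l U)) T := by
  unfold dl
  rw [sum_insert h, erase_insert h]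
  congr 1
  exact sum_congr rfl fun t ht => by rw [erase_insert_of_ne fun e : l = t => h (e ▸ ht)]

theorem sum_symm (g : E → E → ZMod 2) (hg : ∀ x y, g x y = g y x) (X : Finset E) :
    ∑ x ∈ X, ∑ y ∈ X.erase x, g x y = 0 := by
  induction X using Finset.induction_on with
  | empty => simp
  | insert a X ha ih =>
    have h1 : ∀ x ∈ X, ∑ y ∈ (insert a X).erase x, g x y = g a x + ∑ y ∈ X.erase x, g x y := by
      intro x hx
      rw [erase_insert_of_ne fun e : a = x => ha (e ▸ hx),
        sum_insert fun h => ha (mem_of_mem_erase h), hg]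
    rw [sum_insert ha, erase_insert ha, sum_congr rfl h1, sum_add_distrib, ih, add_zero, two]

/-- the signs alternate along the order of the numbers, the first sign is `b` -/
def Alt (b : Bool) (T : Finset E) : Prop :=
  ∀ t ∈ T, t.2 = xor b (#(T.filter fun u => u.1 < t.1)).bodd

open Classical in
/-- the alternation cochain -/
noncomputable def al (b : Bool) (T : Finset E) : ZMod 2 := if Alt b T then 1 else 0

theorem al_insert (b : Bool) {m : E} {T : Finset E} (h : ∀ x ∈ T, x.1 < m.1) :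
    al b (insert m T) = (if m.2 = xor b (#T).bodd then 1 else 0) * al b T := by
  have h1 : (insert m T).filter (fun u => u.1 < m.1) = T := by
    rw [filter_insert, if_neg (lt_irrefl _), filter_true_of_mem h]
  have h2 : ∀ t ∈ T, (insert m T).filter (fun u => u.1 < t.1) = T.filter fun u => u.1 < t.1 :=
    fun t ht => by rw [filter_insert, if_neg (not_lt.2 (h t ht).le)]
  have h3 : Alt b (insert m T) ↔ m.2 = xor b (#T).bodd ∧ Alt b T := by
    unfold Alt
    rw [forall_mem_insert, h1]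
    exact and_congr_right fun _ => forall₂_congr fun t ht => by rw [h2 t ht]
  unfold al
  by_cases a : m.2 = xor b (#T).bodd
  · rw [if_pos a, one_mul, propext (h3.trans (and_iff_right a))]
  · rw [if_neg a, zero_mul, if_neg fun h4 => a (h3.1 h4).1]

theorem kyfan (b : Bool) (T : Finset E) (h : Set.InjOn Prod.fst (T : Set E)) :
    dl (al b) T = al b T + al (!b) T := by
  induction T using Finset.induction_on_max_value (f := (Prod.fst : E → ℕ)) with
  | empty => simp [dl, al, Alt, two]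
  | insert m T hm hle ih =>
    have hlt : ∀ x ∈ T, x.1 < m.1 := fun x hx => lt_of_le_of_ne (hle x hx) fun e =>
      hm (h (by simp [hx]) (by simp) e ▸ hx)
    have ih' := ih (h.mono (by simp))
    have h1 : dl (fun U => al b (insert m U)) T =
        (if m.2 = xor b (#T).bodd then 0 else 1) * dl (al b) T := by
      unfold dl
      rw [mul_sum]
      refine sum_congr rfl fun t ht => ?_
      beta_reduce
      rw [al_insert b fun x hx => hlt x (mem_of_mem_erase hx), ← card_erase_add_one ht,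
        Nat.bodd_succ]
      cases m.2 <;> cases b <;> cases (#(T.erase t)).bodd <;> simp
    rw [dl_insert _ hm, h1, ih', al_insert b hlt, al_insert (!b) hlt]
    cases m.2 <;> cases b <;> cases (#T).bodd <;> simp [← add_assoc, two]

theorem al_fl (b : Bool) (T : Finset E) : al b (T.map fl) = al (!b) T := by
  have h : Alt b (T.map fl) ↔ Alt (!b) T := by
    unfold Alt
    rw [forall_mem_map]
    refine forall₂_congr fun t _ => ?_
    rw [filter_map, card_map]
    show (!t.2) = xor b (#(T.filter fun u => u.1 < t.1)).bodd ↔ _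
    cases t.2 <;> cases b <;> cases (#(T.filter fun u => u.1 < t.1)).bodd <;> simp
  unfold al
  rw [h]

section
variable (lab : Finset E → E)

/-- sum over the maximal chains below `X` -/
def P : ℕ → (Finset E → ZMod 2) → Finset E → ZMod 2
  | 0, φ, _ => φ ∅
  | n + 1, φ, X => ∑ x ∈ X, P n (fun T => φ (insert (lab X) T)) (X.erase x)

/-- the labels of a maximal chain below `X` -/
inductive Adm : Finset E → Finset E → Prop
  | nil : Adm ∅ ∅
  | cons {x : E} {X T : Finset E} : x ∈ X → Adm (X.erase x) T → Adm X (insert (lab X) T)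

variable {lab}

theorem P_congr : ∀ (n : ℕ) {φ ψ : Finset E → ZMod 2} {X : Finset E}, #X = n →
    (∀ T, Adm lab X T → φ T = ψ T) → P lab n φ X = P lab n ψ X
  | 0, _, _, _, h, H => H ∅ (by rw [card_eq_zero.1 h]; exact Adm.nil)
  | n + 1, _, _, _, h, H => sum_congr rfl fun x hx => P_congr n
      (by have := card_erase_add_one hx; omega) fun T hT => H _ (Adm.cons hx hT)

theorem P_add : ∀ (n : ℕ) (φ ψ : Finset E → ZMod 2) (X : Finset E),
    P lab n (fun T => φ T + ψ T) X = P lab n φ X + P lab n ψ X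
  | 0, _, _, _ => rfl
  | n + 1, φ, ψ, X => by
    simp only [P]
    rw [← sum_add_distrib]
    exact sum_congr rfl fun x _ => P_add n _ _ _

theorem P_zero : ∀ (n : ℕ) (X : Finset E), P lab n (fun _ => 0) X = 0
  | 0, _ => rfl
  | n + 1, _ => sum_eq_zero fun _ _ => P_zero n _

theorem Adm.chain {X T : Finset E} (h : Adm lab X T) : ∃ C : Finset (Finset E),
    T = C.image lab ∧ #C = #X ∧ (∀ Y ∈ C, Y ⊆ X ∧ Y.Nonempty) ∧
      ∀ Y ∈ C, ∀ Z ∈ C, Y ⊆ Z ∨ Z ⊆ Y := by
  induction h with
  | nil => exact ⟨∅, by simp⟩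
  | @cons x X T hx _ ih =>
    obtain ⟨C, rfl, h1, h2, h3⟩ := ih
    have h4 : ∀ Y ∈ C, Y ⊆ X := fun Y hY => (h2 Y hY).1.trans (erase_subset _ _)
    refine ⟨insert X C, by rw [image_insert], ?_, ?_, ?_⟩
    · rw [card_insert_of_notMem fun h => notMem_erase x X ((h2 X h).1 hx), h1,
        card_erase_add_one hx]
    · rw [forall_mem_insert]
      exact ⟨⟨Subset.rfl, x, hx⟩, fun Y hY => ⟨h4 Y hY, (h2 Y hY).2⟩⟩
    · simp only [forall_mem_insert]
      exact ⟨⟨Or.inl Subset.rfl, fun Y hY => Or.inr (h4 Y hY)⟩,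
        fun Y hY => ⟨Or.inl (h4 Y hY), h3 Y hY⟩⟩

theorem P_dl {N : ℕ} (hl : ∀ Y Z, Y ⊆ Z → #Z ≤ N → (lab Y).1 = (lab Z).1 → Y = Z) :
    ∀ (n : ℕ) (φ : Finset E → ZMod 2) (X : Finset E), #X = n → n ≤ N →
      P lab n (dl φ) X = dl (P lab (n - 1) φ) X
  | 0, _, _, h, _ => by rw [card_eq_zero.1 h]; rfl
  | n + 1, φ, X, h, hN => by
    have h1 : ∀ x ∈ X, P lab n (fun T => dl φ (insert (lab X) T)) (X.erase x) =
        P lab n φ (X.erase x) + ∑ y ∈ X.erase x,
          P lab (n - 1) (fun U => φ (insert (lab X) U)) ((X.erase x).erase y) := by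
      intro x hx
      have hc : #(X.erase x) = n := by have := card_erase_add_one hx; omega
      rw [P_congr n hc (ψ := fun T => φ T + dl (fun U => φ (insert (lab X) U)) T), P_add,
        P_dl hl n _ _ hc (by omega)]
      · rfl
      · intro T hT
        obtain ⟨C, rfl, -, h2, -⟩ := hT.chain
        refine dl_insert φ fun h3 => ?_
        obtain ⟨Y, hY, e⟩ := mem_image.1 h3
        have h4 := hl Y X ((h2 Y hY).1.trans (erase_subset _ _)) (by omega) (by rw [e])
        exact notMem_erase x X ((h4 ▸ (h2 Y hY).1) hx)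
    show ∑ x ∈ X, _ = _
    rw [sum_congr rfl h1, sum_add_distrib, sum_symm _ fun x y => by rw [erase_right_comm], add_zero]
    rfl

theorem P_fl : ∀ (n : ℕ) (φ : Finset E → ZMod 2) (X : Finset E),
    (∀ Y ⊆ X, Y.Nonempty → lab (Y.map fl) = fl (lab Y)) →
      P lab n φ (X.map fl) = P lab n (fun T => φ (T.map fl)) X
  | 0, _, _, _ => rfl
  | n + 1, φ, X, H => by
    simp only [P]
    rw [sum_map]
    refine sum_congr rfl fun x hx => ?_
    rw [← map_erase, P_fl n _ _ fun Y hY => H Y (hY.trans (erase_subset _ _)),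
      H X Subset.rfl ⟨x, hx⟩]
    simp only [map_insert]

end

/-- sum over all choices of signs -/
def Sm : ℕ → (Finset E → ZMod 2) → ZMod 2
  | 0, F => F ∅
  | d + 1, F => Sm d (fun X => F (insert (d, true) X)) + Sm d fun X => F (insert (d, false) X)

/-- no number occurs with both signs -/
def Con (N : ℕ) (X : Finset E) : Prop := ∀ x ∈ X, x.1 < N ∧ fl x ∉ X

theorem Con.insert {d : ℕ} {X : Finset E} (h : Con d X) (b : Bool) :
    Con (d + 1) (insert (d, b) X) := by
  intro x hx
  rcases mem_insert.1 hx with rfl | hx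
  · refine ⟨Nat.lt_succ_self d, fun h1 => ?_⟩
    rcases mem_insert.1 h1 with h1 | h1
    · exact Bool.not_ne_self b (congrArg Prod.snd h1)
    · exact lt_irrefl d (h _ h1).1
  · refine ⟨(h x hx).1.trans (Nat.lt_succ_self d), fun h1 => ?_⟩
    rcases mem_insert.1 h1 with h1 | h1
    · exact (h x hx).1.ne (congrArg Prod.fst h1)
    · exact (h x hx).2 h1

theorem Con.mono {d N : ℕ} {X Y : Finset E} (h : Con d X) (hY : Y ⊆ X) (hN : d ≤ N) : Con N Y :=
  fun x hx => ⟨(h x (hY hx)).1.trans_le hN, fun h1 => (h x (hY hx)).2 (hY h1)⟩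

theorem Con.nm {d : ℕ} {X : Finset E} (h : Con d X) (b : Bool) : (d, b) ∉ X :=
  fun h1 => lt_irrefl d (h _ h1).1

theorem Sm_congr : ∀ (d : ℕ) {F G : Finset E → ZMod 2},
    (∀ X, Con d X → #X = d → F X = G X) → Sm d F = Sm d G
  | 0, _, _, H => H ∅ (by simp [Con]) rfl
  | d + 1, _, _, H => congrArg₂ (· + ·)
      (Sm_congr d fun X h e => H _ (h.insert _) (by rw [card_insert_of_notMem (h.nm _), e]))
      (Sm_congr d fun X h e => H _ (h.insert _) (by rw [card_insert_of_notMem (h.nm _), e]))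

theorem Sm_add : ∀ (d : ℕ) (F G : Finset E → ZMod 2),
    Sm d (fun X => F X + G X) = Sm d F + Sm d G
  | 0, _, _ => rfl
  | d + 1, F, G => by
    simp only [Sm]
    rw [Sm_add d, Sm_add d]
    ring

theorem Sm_zero : ∀ d : ℕ, Sm d (fun _ => 0) = 0
  | 0 => rfl
  | d + 1 => by simp only [Sm, Sm_zero d, add_zero]

theorem Sm_fl : ∀ (d : ℕ) (F : Finset E → ZMod 2), Sm d (fun X => F (X.map fl)) = Sm d F
  | 0, _ => rfl
  | d + 1, F => by
    simp only [Sm, map_insert]
    rw [add_comm]
    exact congrArg₂ (· + ·) (Sm_fl d fun X => F (insert (d, true) X))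
      (Sm_fl d fun X => F (insert (d, false) X))

theorem Sm_dl : ∀ (d : ℕ) (F : Finset E → ZMod 2), Sm d (dl F) = 0
  | 0, _ => rfl
  | d + 1, F => by
    have h : ∀ b, Sm d (fun X => dl F (insert (d, b) X)) = Sm d F := fun b => by
      rw [Sm_congr d fun X h _ => dl_insert F (h.nm b), Sm_add, Sm_dl d, add_zero]
    simp only [Sm, h, two]

theorem odd {lab : Finset E → E} {N : ℕ}
    (hl : ∀ Y Z, Y ⊆ Z → #Z ≤ N → (lab Y).1 = (lab Z).1 → Y = Z)
    (hf : ∀ Y, Con N Y → Y.Nonempty → lab (Y.map fl) = fl (lab Y)) :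
    ∀ d, d ≤ N → Sm d (P lab d (al true)) = 1
  | 0, _ => by simp [Sm, P, al, Alt]
  | d + 1, hd => by
    have h1 : Sm d (fun X => P lab (d + 1) (al true) (insert (d, false) X)) =
        Sm d fun X => P lab (d + 1) (al false) (insert (d, true) X) := by
      rw [← Sm_fl]
      refine Sm_congr d fun X h _ => ?_
      have e : insert (d, false) (X.map fl) = (insert (d, true) X).map fl := by
        rw [map_insert]
        rfl
      rw [e, P_fl _ _ _ fun Y hY => hf Y ((h.insert true).mono hY hd)]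
      simp only [al_fl, Bool.not_true]
    show Sm d _ + Sm d _ = 1
    rw [h1, ← Sm_add, ← odd hl hf d (by omega),
      ← add_zero (Sm d (P lab d (al true))),
      ← Sm_dl d fun X => P lab d (al true) (insert (d, true) X), ← Sm_add]
    refine Sm_congr d fun X h e => ?_
    have hc : #(insert (d, true) X) = d + 1 := by rw [card_insert_of_notMem (h.nm _), e]
    rw [← dl_insert _ (h.nm true), ← P_add]
    refine Eq.trans (P_congr _ hc fun T hT => (kyfan true T ?_).symm) (P_dl hl _ _ _ hc hd)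
    obtain ⟨C, rfl, -, h2, h3⟩ := hT.chain
    intro t ht u hu e
    obtain ⟨Y, hY, rfl⟩ := mem_image.1 (mem_coe.1 ht)
    obtain ⟨Z, hZ, rfl⟩ := mem_image.1 (mem_coe.1 hu)
    rcases h3 Y hY Z hZ with h4 | h4
    · rw [hl Y Z h4 ((card_le_card (h2 Z hZ).1).trans (by omega)) e]
    · rw [hl Z Y h4 ((card_le_card (h2 Y hY).1).trans (by omega)) e.symm]

/-- The lemma of Tucker. -/
theorem tucker (N t : ℕ) (ab : Finset E → ℕ) (sg : Finset E → Bool)
    (h1 : ∀ Y, Con N Y → Y.Nonempty → ab (Y.map fl) = ab Y ∧ sg (Y.map fl) = (!sg Y) ∧ ab Y < t)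
    (h2 : ∀ Y Z, Con N Z → Y ⊆ Z → Y.Nonempty → ab Y = ab Z → sg Y = sg Z) : N ≤ t := by
  let lab : Finset E → E := fun Y => (ab Y * (N + 1) + #Y, sg Y)
  have dv : ∀ Y : Finset E, #Y ≤ N → (lab Y).1 / (N + 1) = ab Y := fun Y hY => by
    show (ab Y * (N + 1) + #Y) / (N + 1) = ab Y
    rw [add_comm, Nat.add_mul_div_right _ _ N.succ_pos, Nat.div_eq_of_lt (by omega), zero_add]
  have hl : ∀ Y Z, Y ⊆ Z → #Z ≤ N → (lab Y).1 = (lab Z).1 → Y = Z := fun Y Z h hZ e => by
    have h3 : ab Y = ab Z := by rw [← dv Y ((card_le_card h).trans hZ), ← dv Z hZ, e]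
    have h4 : ab Y * (N + 1) + #Y = ab Z * (N + 1) + #Z := e
    rw [h3] at h4
    exact eq_of_subset_of_card_le h (by omega)
  have ho := odd hl (fun Y hY hn => by
    show (ab (Y.map fl) * (N + 1) + #(Y.map fl), sg (Y.map fl)) = _
    rw [(h1 Y hY hn).1, (h1 Y hY hn).2.1, card_map]
    rfl) N le_rfl
  by_contra hlt
  rw [Sm_congr N (G := fun _ => 0), Sm_zero] at ho
  · exact zero_ne_one ho
  intro X hX hc
  rw [P_congr N hc (ψ := fun _ => 0), P_zero]
  intro T hT
  refine if_neg fun hA => hlt ?_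
  obtain ⟨C, rfl, c1, c2, c3⟩ := hT.chain
  have cb : ∀ Y ∈ C, #Y ≤ N := fun Y hY => (card_le_card (c2 Y hY).1).trans hc.le
  have cs : ∀ Y ∈ C, ∀ Z ∈ C, ab Y = ab Z → sg Y = sg Z := fun Y hY Z hZ e =>
    (c3 Y hY Z hZ).elim (fun h => h2 Y Z (hX.mono (c2 Z hZ).1 le_rfl) h (c2 Y hY).2 e)
      fun h => (h2 Z Y (hX.mono (c2 Y hY).1 le_rfl) h (c2 Z hZ).2 e.symm).symm
  have ci : ∀ Y ∈ C, ∀ Z ∈ C, (lab Y).1 = (lab Z).1 → Y = Z := fun Y hY Z hZ e =>
    (c3 Y hY Z hZ).elim (fun h => hl Y Z h (cb Z hZ) e) fun h => (hl Z Y h (cb Y hY) e.symm).symm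
  have key : ∀ Y ∈ C, ∀ Z ∈ C, (lab Y).1 < (lab Z).1 → ab Y ≠ ab Z := by
    intro Y hY Z hZ hlt e
    obtain ⟨W, hW, hmin⟩ := exists_min_image (C.filter fun W => (lab Y).1 < (lab W).1)
      (fun W => (lab W).1) ⟨Z, mem_filter.2 ⟨hZ, hlt⟩⟩
    obtain ⟨hW, hYW⟩ := mem_filter.1 hW
    have e1 : ab Y = ab W := by
      have a1 := Nat.div_le_div_right (c := N + 1) hYW.le
      have a2 := Nat.div_le_div_right (c := N + 1) (hmin Z (mem_filter.2 ⟨hZ, hlt⟩))
      rw [dv _ (cb _ hY), dv _ (cb _ hW)] at a1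
      rw [dv _ (cb _ hW), dv _ (cb _ hZ)] at a2
      omega
    have e2 : (C.image lab).filter (fun u => u.1 < (lab W).1) =
        insert (lab Y) ((C.image lab).filter fun u => u.1 < (lab Y).1) := by
      ext u
      simp only [mem_insert, mem_filter]
      constructor
      · rintro ⟨hu, h3⟩
        obtain ⟨U, hU, rfl⟩ := mem_image.1 hu
        rcases lt_trichotomy (lab U).1 (lab Y).1 with h4 | h4 | h4
        · exact Or.inr ⟨hu, h4⟩
        · exact Or.inl (by rw [ci U hU Y hY h4])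
        · exact absurd (hmin U (mem_filter.2 ⟨hU, h4⟩)) (not_le.2 h3)
      · rintro (rfl | ⟨hu, h3⟩)
        · exact ⟨mem_image_of_mem _ hY, hYW⟩
        · exact ⟨hu, h3.trans hYW⟩
    have a1 := hA _ (mem_image_of_mem _ hY)
    have a2 := hA _ (mem_image_of_mem _ hW)
    rw [e2, card_insert_of_notMem (by simp), Nat.bodd_succ,
      show (lab W).2 = (lab Y).2 from (cs Y hY W hW e1).symm, a1] at a2
    simp at a2
  rw [← hc, ← c1, ← card_range t]
  refine card_le_card_of_injOn ab (fun Y hY => ?_) fun Y hY Z hZ e => ?_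
  · exact mem_coe.2 (mem_range.2 (h1 Y (hX.mono (c2 Y hY).1 le_rfl) (c2 Y hY).2).2.2)
  · rcases lt_trichotomy (lab Y).1 (lab Z).1 with h | h | h
    · exact absurd e (key Y hY Z hZ h)
    · exact ci Y hY Z hZ h
    · exact absurd e.symm (key Z hZ Y hY h)

/-- the numbers with sign `b` -/
def pt (X : Finset E) (b : Bool) : Finset ℕ := (X.filter fun x => x.2 = b).image Prod.fst

theorem mem_pt {X : Finset E} {b : Bool} {i : ℕ} : i ∈ pt X b ↔ (i, b) ∈ X := by
  simp only [pt, mem_image, mem_filter]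
  exact ⟨fun ⟨x, ⟨h1, h2⟩, h3⟩ => by rw [← h2, ← h3]; exact h1, fun h => ⟨_, ⟨h, rfl⟩, rfl⟩⟩

theorem pt_fl (X : Finset E) (b : Bool) : pt (X.map fl) b = pt X (!b) := by
  ext i
  rw [mem_pt, mem_pt, mem_fl]
  rfl

theorem card_pt (X : Finset E) : #X ≤ #(pt X true) + #(pt X false) := by
  have h : ∀ b, #(pt X b) = #(X.filter fun x => x.2 = b) := fun b =>
    card_image_of_injOn fun x hx y hy e =>
      Prod.ext e ((mem_filter.1 hx).2.trans (mem_filter.1 hy).2.symm)
  rw [h, h, ← card_filter_add_card_filter_not (s := X) fun x => x.2 = true]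
  simp

theorem sup_ne {α : Type} {s s' : Finset α} {f : α → ℕ} (h : s.Nonempty ∨ s'.Nonempty)
    (hf : ∀ x ∈ s, ∀ y ∈ s', f x ≠ f y) :
    (s.sup fun x => f x + 1) ≠ s'.sup fun x => f x + 1 := by
  rcases s.eq_empty_or_nonempty with rfl | h1 <;> rcases s'.eq_empty_or_nonempty with rfl | h2
  · simp at h
  · obtain ⟨y, -, e⟩ := exists_mem_eq_sup s' h2 fun x => f x + 1
    simp [e]
  · obtain ⟨y, -, e⟩ := exists_mem_eq_sup s h1 fun x => f x + 1
    simp [e]
  · obtain ⟨x, hx, e⟩ := exists_mem_eq_sup s h1 fun x => f x + 1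
    obtain ⟨y, hy, e'⟩ := exists_mem_eq_sup s' h2 fun x => f x + 1
    have := hf x hx y hy
    omega

/-- The theorem of Lovász on Kneser graphs. -/
theorem kneser (N j t : ℕ) (c : Finset ℕ → ℕ)
    (hc : ∀ S, S ⊆ range N → #S = j + 1 → c S < t)
    (hd : ∀ S T, S ⊆ range N → T ⊆ range N → #S = j + 1 → #T = j + 1 → Disjoint S T →
      c S ≠ c T) : N ≤ 2 * j + t := by
  let u : Finset E → Bool → ℕ := fun X b => (pt X b).sup fun i => i + 1
  let w : Finset E → Bool → ℕ := fun X b => (powersetCard (j + 1) (pt X b)).sup fun S => c S + 1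
  have hr : ∀ {X}, Con N X → ∀ b, pt X b ⊆ range N := fun h b i hi =>
    mem_range.2 (h _ (mem_pt.1 hi)).1
  have hj : ∀ {X}, Con N X → Disjoint (pt X true) (pt X false) := fun h =>
    disjoint_left.2 fun i h1 h2 => (h _ (mem_pt.1 h1)).2 (mem_pt.1 h2)
  have hu : ∀ X, Con N X → X.Nonempty → u X true ≠ u X false := fun X h ⟨⟨i, b⟩, hx⟩ =>
    sup_ne (f := fun i => i) (by
      cases b
      · exact Or.inr ⟨i, mem_pt.2 hx⟩
      · exact Or.inl ⟨i, mem_pt.2 hx⟩) fun x hx y hy e => disjoint_left.1 (hj h) hx (e ▸ hy)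
  have hw : ∀ X, Con N X → ¬ #X ≤ 2 * j → w X true ≠ w X false := fun X h hX =>
    sup_ne (by
      have := card_pt X
      simp only [powersetCard_nonempty]
      omega) fun S hS T hT => by
        obtain ⟨a1, a2⟩ := mem_powersetCard.1 hS
        obtain ⟨b1, b2⟩ := mem_powersetCard.1 hT
        exact hd S T (a1.trans (hr h _)) (b1.trans (hr h _)) a2 b2 ((hj h).mono a1 b1)
  have hb : ∀ X, Con N X → ∀ b, w X b ≤ t := fun X h b => Finset.sup_le fun S hS =>
    hc S ((mem_powersetCard.1 hS).1.trans (hr h b)) (mem_powersetCard.1 hS).2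
  have hm : ∀ Y Z, Y ⊆ Z → ∀ b, w Y b ≤ w Z b := fun Y Z h b =>
    sup_mono (powersetCard_mono fun i hi => mem_pt.2 (h (mem_pt.1 hi)))
  refine tucker N (2 * j + t)
    (fun X => if #X ≤ 2 * j then #X - 1 else 2 * j + max (w X true) (w X false) - 1)
    (fun X => if #X ≤ 2 * j then decide (u X false < u X true) else decide (w X false < w X true))
    (fun Y hY hn => ?_) fun Y Z hZ h hn => ?_
  · have e1 : ∀ b, u (Y.map fl) b = u Y (!b) := fun b => by simp only [u, pt_fl]
    have e2 : ∀ b, w (Y.map fl) b = w Y (!b) := fun b => by simp only [w, pt_fl]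
    have a1 := hu Y hY hn
    have a2 := hw Y hY
    have a3 := hb Y hY true
    have a4 := hb Y hY false
    have a5 := hn.card_pos
    simp only [e1, e2, card_map, Bool.not_true, Bool.not_false]
    split_ifs with h
    · refine ⟨rfl, ?_, by omega⟩
      rw [← decide_not, decide_eq_decide]
      omega
    · have := a2 h
      refine ⟨by rw [max_comm], ?_, by omega⟩
      rw [← decide_not, decide_eq_decide]
      omega
  · have a1 := hw Y (hZ.mono h le_rfl)
    have a2 := hw Z hZ
    have a3 := hm Y Z h true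
    have a4 := hm Y Z h false
    have a5 := hn.card_pos
    have a6 := card_le_card h
    split_ifs with h1 h2 h2
    · intro e
      rw [eq_of_subset_of_card_le h (by omega)]
    · have := a2 h2
      omega
    · omega
    · have := a1 h1
      have := a2 h2
      intro e
      rw [decide_eq_decide]
      omega

end Pool.Agent.MP_6b5009_co.Kn
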