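import Mathlib

/-! Multiple colourings: the definitions of the problem file. -/

set_option autoImplicit false

namespace Pool.Agent.MP_6b5009_co.Sp

variable {V : Type}

/-- `f` is a `k`-fold colouring of `G` with colours from a palette of `m` colours. -/
def IsFold (G : SimpleGraph V) (k m : ℕ) (f : V → Finset (Fin m)) : Prop :=
  (∀ v, (f v).card = k) ∧ ∀ u v, G.Adj u v → Disjoint (f u) (f v)

/-- The `k`-fold chromatic number. -/
noncomputable def chi (G : SimpleGraph V) (k : ℕ) : ℕ :=
  sInf {m : ℕ | ∃ f : V → Finset (Fin m), IsFold G k m f}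

/-- In every `k`-fold colouring with the least number of colours each colour appears on exactly
`α(G)` vertices. -/
def Saturated (G : SimpleGraph V) (k : ℕ) : Prop :=
  ∀ f : V → Finset (Fin (chi G k)), IsFold G k (chi G k) f →
    ∀ c, {v | c ∈ f v}.ncard = G.indepNum

end Pool.Agent.MP_6b5009_co.Sp
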