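import Pool.Agent.MP_6b5009_co.SpDefs
import Pool.Agent.MP_6b5009_co.Kn

/-! The possible values of the defect for saturated graphs. -/

set_option autoImplicit false

open Finset

namespace Pool.Agent.MP_6b5009_co.Sp

section
variable {V : Type} {G : SimpleGraph V}

/-- there is a `j`-fold colouring with colours below `N` -/
def Fold (G : SimpleGraph V) (j N : ℕ) : Prop :=
  ∃ f : V → Finset ℕ, (∀ v, #(f v) = j ∧ ∀ x ∈ f v, x < N) ∧
    ∀ u v, G.Adj u v → Disjoint (f u) (f v)

theorem fold_iff {j N : ℕ} : (∃ f : V → Finset (Fin N), IsFold G j N f) ↔ Fold G j N := by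
  constructor
  · rintro ⟨f, h1, h2⟩
    refine ⟨fun v => (f v).map Fin.valEmbedding, fun v => ⟨by rw [card_map, h1], fun x hx => ?_⟩,
      fun u v h => (disjoint_map _).2 (h2 u v h)⟩
    obtain ⟨y, -, rfl⟩ := mem_map.1 hx
    exact y.2
  · rintro ⟨f, h1, h2⟩
    exact ⟨fun v => (f v).attachFin (h1 v).2, fun v => by rw [card_attachFin, (h1 v).1],
      fun u v h => disjoint_left.2 fun x a b =>
        disjoint_left.1 (h2 u v h) ((mem_attachFin _).1 a) ((mem_attachFin _).1 b)⟩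

theorem Fold.mono {j N N' : ℕ} (h : Fold G j N) (hN : N ≤ N') : Fold G j N' := by
  obtain ⟨f, h1, h2⟩ := h
  exact ⟨f, fun v => ⟨(h1 v).1, fun x hx => ((h1 v).2 x hx).trans_le hN⟩, h2⟩

theorem fold_one {c : ℕ} : Fold G 1 c ↔ G.Colorable c := by
  constructor
  · rintro ⟨f, h1, h2⟩
    choose a ha using fun v => card_eq_one.1 (h1 v).1
    refine ⟨SimpleGraph.Coloring.mk (fun v => ⟨a v, (h1 v).2 _ (by simp [ha])⟩) fun {u v} h e => ?_⟩
    have h3 := h2 u v h
    rw [ha, ha, disjoint_singleton] at h3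
    exact h3 (congrArg Fin.val e)
  · rintro ⟨C⟩
    exact ⟨fun v => {(C v : ℕ)}, fun v => ⟨card_singleton _, fun x hx => by
      rw [mem_singleton.1 hx]; exact (C v).2⟩,
      fun u v h => disjoint_singleton.2 fun e => C.valid h (Fin.ext e)⟩

theorem stahl_set {j N : ℕ} (hj : j ≤ N) {S : Finset ℕ} (h1 : #S = j + 1)
    (h2 : ∀ x ∈ S, x < N + 2) : ∃ S' : Finset ℕ, #S' = j ∧ ∀ y ∈ S', y < N ∧
      ((y ∈ S ∧ ∃ z ∈ S, y < z) ∨ ∀ z, y < z → z < N + 2 → z ∈ S) := by
  by_cases h : N ∈ S ∧ N + 1 ∈ S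
  · have c1 := card_erase_add_one h.2
    have c2 := card_erase_add_one (s := S.erase (N + 1)) (a := N) (mem_erase.2 ⟨by omega, h.1⟩)
    have hne : (range N \ (S.erase (N + 1)).erase N).Nonempty := by
      rw [← card_pos]
      have := le_card_sdiff ((S.erase (N + 1)).erase N) (range N)
      rw [card_range] at this
      omega
    obtain ⟨x, hx, hmax⟩ := exists_max_image _ id hne
    obtain ⟨x1, x2⟩ := mem_sdiff.1 hx
    refine ⟨insert x ((S.erase (N + 1)).erase N), by rw [card_insert_of_notMem x2]; omega,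
      fun y hy => ?_⟩
    rcases mem_insert.1 hy with rfl | hy
    · refine ⟨mem_range.1 x1, Or.inr fun z z1 z2 => ?_⟩
      by_contra z3
      have z4 : z ≠ N := fun e => z3 (e ▸ h.1)
      have z5 : z ≠ N + 1 := fun e => z3 (e ▸ h.2)
      have := hmax z (mem_sdiff.2 ⟨mem_range.2 (by omega),
        fun z6 => z3 (mem_of_mem_erase (mem_of_mem_erase z6))⟩)
      exact absurd z1 (not_lt.2 this)
    · obtain ⟨y1, y2⟩ := mem_erase.1 hy
      obtain ⟨y3, y4⟩ := mem_erase.1 y2
      have := h2 y y4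
      exact ⟨by omega, Or.inl ⟨y4, N + 1, h.2, by omega⟩⟩
  · obtain ⟨x, hx, hmax⟩ := exists_max_image S id (card_pos.1 (by omega))
    have c1 := card_erase_add_one hx
    refine ⟨S.erase x, by omega, fun y hy => ?_⟩
    obtain ⟨y1, y2⟩ := mem_erase.1 hy
    have y3 : y < x := lt_of_le_of_ne (hmax y y2) y1
    refine ⟨?_, Or.inl ⟨y2, x, hx, y3⟩⟩
    have := h2 x hx
    by_contra y4
    exact h ⟨(show y = N by omega) ▸ y2, (show x = N + 1 by omega) ▸ hx⟩

theorem stahl {j N : ℕ} (hj : j ≤ N) (h : Fold G (j + 1) (N + 2)) : Fold G j N := by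
  obtain ⟨f, h1, h2⟩ := h
  choose g g1 g2 using fun v => stahl_set hj (h1 v).1 (h1 v).2
  refine ⟨g, fun v => ⟨g1 v, fun x hx => (g2 v x hx).1⟩, fun u v h => ?_⟩
  have hd := disjoint_left.1 (h2 u v h)
  refine disjoint_left.2 fun y a b => ?_
  obtain ⟨y1, a⟩ := g2 u y a
  obtain ⟨-, b⟩ := g2 v y b
  rcases a with ⟨a1, z, a2, a3⟩ | a <;> rcases b with ⟨b1, z', b2, b3⟩ | b
  · exact hd a1 b1
  · exact hd a2 (b z a3 ((h1 u).2 z a2))
  · exact hd (a z' b3 ((h1 v).2 z' b2)) b2
  · exact hd (a N y1 (by omega)) (b N y1 (by omega))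

theorem stahl_iter {j N : ℕ} (hj : j ≤ N) : ∀ i, Fold G (j + i) (N + 2 * i) → Fold G j N
  | 0, h => h
  | i + 1, h => stahl_iter hj i (stahl (by omega) h)

variable [Fintype V]

theorem fold_ex (G : SimpleGraph V) (j : ℕ) : ∃ N, Fold G j N := by
  let e := Fintype.equivFin V
  refine ⟨j * Fintype.card V, fun v => Ico (j * e v) (j * e v + j), fun v => ⟨by simp, ?_⟩,
    fun u v h => disjoint_left.2 fun x a b => h.ne (e.injective (Fin.ext ?_))⟩
  · intro x hx
    exact (mem_Ico.1 hx).2.trans_le (Nat.mul_le_mul_left j (e v).2)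
  · rw [mem_Ico] at a b
    have h1 : j * e u < j * (e v + 1) := by rw [mul_add_one]; omega
    have h2 : j * e v < j * (e u + 1) := by rw [mul_add_one]; omega
    have h3 := Nat.lt_of_mul_lt_mul_left h1
    have h4 := Nat.lt_of_mul_lt_mul_left h2
    omega

theorem chi_mem (G : SimpleGraph V) (j : ℕ) :
    ∃ f : V → Finset (Fin (chi G j)), IsFold G j (chi G j) f :=
  Nat.sInf_mem (s := {m : ℕ | ∃ f : V → Finset (Fin m), IsFold G j m f})
    ((fold_ex G j).imp fun _ h => fold_iff.2 h)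

omit [Fintype V] in
theorem chi_le {j N : ℕ} (h : Fold G j N) : chi G j ≤ N := Nat.sInf_le (fold_iff.2 h)

theorem count {j N : ℕ} {f : V → Finset (Fin N)} (h : IsFold G j N f) :
    ∑ c, {v | c ∈ f v}.ncard = j * Fintype.card V ∧ ∀ c, {v | c ∈ f v}.ncard ≤ G.indepNum := by
  have e : ∀ c, {v | c ∈ f v} = ↑(univ.filter fun v => c ∈ f v) := fun c => by simp
  refine ⟨?_, fun c => ?_⟩
  · simp only [e, Set.ncard_coe_finset, card_filter]
    rw [sum_comm]
    simp [h.1, mul_comm]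
  · rw [e, Set.ncard_coe_finset]
    refine SimpleGraph.IsIndepSet.card_le_indepNum fun u hu v hv _ a => ?_
    exact disjoint_left.1 (h.2 u v a) (mem_filter.1 hu).2 (mem_filter.1 hv).2

theorem Fold.count {j N : ℕ} (h : Fold G j N) : j * Fintype.card V ≤ N * G.indepNum := by
  obtain ⟨f, hf⟩ := fold_iff.2 h
  rw [← (Sp.count hf).1]
  exact (sum_le_card_nsmul _ _ _ fun c _ => (Sp.count hf).2 c).trans (by simp)

theorem ceil_le {k m n : ℕ} (hk : 1 ≤ k) : ⌈(m : ℚ) / k⌉₊ ≤ n ↔ m ≤ n * k := by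
  rw [Nat.ceil_le, div_le_iff₀ (by exact_mod_cast hk)]
  exact_mod_cast Iff.rfl

theorem next_le {k m N : ℕ} (hk : 1 ≤ k) (h0 : 0 < G.indepNum)
    (he : m * G.indepNum ≤ k * Fintype.card V) (h : Fold G (k + 1) N) :
    m + ⌈(m : ℚ) / k⌉₊ ≤ N := by
  have h1 := h.count
  have h2 : (k + 1) * m ≤ N * k := by
    refine Nat.le_of_mul_le_mul_right ?_ h0
    calc (k + 1) * m * G.indepNum = (k + 1) * (m * G.indepNum) := by ring
      _ ≤ (k + 1) * (k * Fintype.card V) := Nat.mul_le_mul_left _ he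
      _ = k * ((k + 1) * Fintype.card V) := by ring
      _ ≤ k * (N * G.indepNum) := Nat.mul_le_mul_left _ h1
      _ = N * k * G.indepNum := by ring
  have h3 : m ≤ N := Nat.le_of_mul_le_mul_right (c := k) (by nlinarith) hk
  obtain ⟨r, rfl⟩ := Nat.exists_eq_add_of_le h3
  exact Nat.add_le_add_left ((ceil_le hk).2 (by nlinarith)) m

theorem upper {k m d : ℕ} (hk : 1 ≤ k) (hm : 2 * k ≤ m) (hs : Saturated G k) (hc : chi G k = m)
    (hd : (chi G (k + 1) + d : ℕ∞) = chi G k + G.chromaticNumber) :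
    d + ⌈(m : ℚ) / k⌉₊ + 2 * k ≤ m + 2 := by
  obtain ⟨f, hf⟩ := chi_mem G k
  have h1 := (count hf).1
  rw [sum_congr rfl fun c _ => hs f hf c, sum_const, card_univ, Fintype.card_fin, smul_eq_mul,
    hc] at h1
  have h0 : 0 < G.indepNum := by
    by_contra h0
    have h2 : Fintype.card V = 0 := by
      rw [show G.indepNum = 0 by omega, mul_zero] at h1
      exact (mul_eq_zero.1 h1.symm).resolve_left (by omega)
    have := Fintype.card_eq_zero_iff.1 h2
    have := chi_le (G := G) (j := k) (N := 0)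
      ⟨fun _ => ∅, fun v => isEmptyElim v, fun v => isEmptyElim v⟩
    omega
  have h2 := next_le hk h0 h1.le (fold_iff.1 (chi_mem G (k + 1)))
  have h3 : Fold G k m := hc ▸ fold_iff.1 ⟨f, hf⟩
  have h4 : G.Colorable (m + 2 - 2 * k) := fold_one.1 (stahl_iter (by omega) (k - 1) (by
    rwa [show 1 + (k - 1) = k by omega, show m + 2 - 2 * k + 2 * (k - 1) = m by omega]))
  have h5 : (chi G (k + 1) + d : ℕ∞) ≤ m + (m + 2 - 2 * k : ℕ) := by
    rw [hd, hc]
    exact add_le_add le_rfl h4.chromaticNumber_le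
  have h6 : chi G (k + 1) + d ≤ m + (m + 2 - 2 * k) := by exact_mod_cast h5
  omega

theorem pack [Nonempty V] {k m c : ℕ} (hk : 1 ≤ k) (he : m * G.indepNum ≤ k * Fintype.card V)
    (h1 : Fold G k m) (h2 : Fold G (k + 1) (m + ⌈(m : ℚ) / k⌉₊)) (h3 : Fold G 1 c)
    (h4 : ∀ t, G.Colorable t → c ≤ t) : Saturated G k ∧ chi G k = m ∧
      chi G (k + 1) = m + ⌈(m : ℚ) / k⌉₊ ∧ G.chromaticNumber = c := by
  have h0 : 0 < G.indepNum := by
    have := h1.count
    have h5 : 0 < k * Fintype.card V := Nat.mul_pos hk Fintype.card_pos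
    exact Nat.pos_of_ne_zero fun e => by rw [e] at this; omega
  have h5 : chi G k = m := le_antisymm (chi_le h1)
    (Nat.le_of_mul_le_mul_right (he.trans (fold_iff.1 (chi_mem G k)).count) h0)
  refine ⟨fun f hf x => ?_, h5, le_antisymm (chi_le h2)
    (next_le hk h0 he (fold_iff.1 (chi_mem G (k + 1)))),
    le_antisymm (fold_one.1 h3).chromaticNumber_le ?_⟩
  · by_contra h6
    have h7 := sum_lt_sum (s := univ) (fun c _ => (count hf).2 c)
      ⟨x, mem_univ x, lt_of_le_of_ne ((count hf).2 x) h6⟩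
    rw [(count hf).1, sum_const, card_univ, Fintype.card_fin, smul_eq_mul, h5] at h7
    omega
  · have h6 := G.colorable_chromaticNumber_of_fintype
    rw [← ENat.natCast_toNat (n := G.chromaticNumber)
      (SimpleGraph.chromaticNumber_ne_top_iff_exists.2 ⟨_, h6⟩)]
    exact_mod_cast h4 _ h6

end

/-- a private copy of `F` is attached with its root `r` at every vertex of `H` -/
def glue {U W : Type} (H : SimpleGraph U) (F : SimpleGraph W) (r : W) : SimpleGraph (U × W) where
  Adj x y := (x.1 = y.1 ∧ F.Adj x.2 y.2) ∨ (x.2 = r ∧ y.2 = r ∧ H.Adj x.1 y.1)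
  symm := ⟨fun _ _ h => h.imp (fun h => ⟨h.1.symm, h.2.symm⟩) fun h => ⟨h.2.1, h.1, h.2.2.symm⟩⟩
  loopless := ⟨fun _ h => h.elim (fun h => h.2.ne rfl) fun h => h.2.2.ne rfl⟩

section
variable {U W : Type} {H : SimpleGraph U} {F : SimpleGraph W} {r : W}

theorem glue_fold {j N : ℕ} (h1 : Fold H j N) (h2 : Fold F j N) : Fold (glue H F r) j N := by
  obtain ⟨g, g1, g2⟩ := fold_iff.2 h1
  obtain ⟨a, a1, a2⟩ := fold_iff.2 h2
  choose π hπ using fun S => Equiv.Perm.exists_map_finset_eq (a r) (g S) ((a1 r).trans (g1 S).symm)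
  refine fold_iff.1 ⟨fun x => (a x.2).map (π x.1).toEmbedding, fun x => by rw [card_map, a1], ?_⟩
  rintro ⟨S, i⟩ ⟨T, l⟩ (⟨rfl, h⟩ | ⟨e1, e2, h⟩)
  · exact (disjoint_map _).2 (a2 i l h)
  · beta_reduce
    rw [e1, e2, hπ, hπ]
    exact g2 S T h

theorem glue_col {t : ℕ} (h : (glue H F r).Colorable t) : H.Colorable t := by
  obtain ⟨C⟩ := h
  exact ⟨SimpleGraph.Coloring.mk (fun S => C (S, r)) fun h => C.valid (Or.inr ⟨rfl, rfl, h⟩)⟩

theorem glue_conn (h1 : H.Connected) (h2 : F.Connected) : (glue H F r).Connected := by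
  have := h1.nonempty
  have := h2.nonempty
  have a : ∀ S i, (glue H F r).Reachable (S, i) (S, r) := fun S i =>
    (h2.preconnected i r).map (⟨fun w => (S, w), fun h => Or.inl ⟨rfl, h⟩⟩ : F →g glue H F r)
  have b : ∀ S T, (glue H F r).Reachable (S, r) (T, r) := fun S T =>
    (h1.preconnected S T).map (⟨fun u => (u, r), fun h => Or.inr ⟨rfl, rfl, h⟩⟩ : H →g glue H F r)
  exact ⟨fun x y => ((a x.1 x.2).trans (b x.1 y.1)).trans (a y.1 y.2).symm⟩

theorem glue_ind [Fintype U] [Fintype W] :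
    (glue H F r).indepNum ≤ Fintype.card U * F.indepNum := by
  classical
  obtain ⟨s, hs⟩ := (glue H F r).exists_isNIndepSet_indepNum
  rw [← hs.card_eq, card_eq_sum_card_fiberwise (f := Prod.fst) (t := univ) fun _ _ => mem_univ _]
  refine (sum_le_card_nsmul _ _ F.indepNum fun S _ => ?_).trans (by simp)
  rw [← card_image_of_injOn (f := Prod.snd) fun x hx y hy e =>
    Prod.ext ((mem_filter.1 hx).2.trans (mem_filter.1 hy).2.symm) e]
  refine SimpleGraph.IsIndepSet.card_le_indepNum fun i hi l hl _ a => ?_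
  obtain ⟨x, hx, rfl⟩ := mem_image.1 (mem_coe.1 hi)
  obtain ⟨y, hy, rfl⟩ := mem_image.1 (mem_coe.1 hl)
  have e := (mem_filter.1 hx).2.trans (mem_filter.1 hy).2.symm
  have h : (glue H F r).Adj x y := Or.inl ⟨e, a⟩
  exact hs.isIndepSet (mem_filter.1 hx).1 (mem_filter.1 hy).1 h.ne h

end

/-- the circular clique -/
def circ (k m : ℕ) : SimpleGraph (Fin m) where
  Adj i j := i ≠ j ∧ ((i + k ≤ j ∧ j + k ≤ i + m) ∨ (j + k ≤ i ∧ i + k ≤ j + m))
  symm := ⟨fun _ _ h => ⟨h.1.symm, h.2.symm⟩⟩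
  loopless := ⟨fun _ h => h.1 rfl⟩

theorem mod_ne {N a b : ℕ} (h1 : a < b) (h2 : b < a + N) : a % N ≠ b % N := fun e => by
  have := Nat.le_of_dvd (show 0 < b - a by omega) ((Nat.modEq_iff_dvd' h1.le).1 e)
  omega

theorem circ_fold {k m j N : ℕ} (hj : 1 ≤ j) (hkm : k ≤ m) (hm : 0 < m) (h : j * m ≤ N * k) :
    Fold (circ k m) j N := by
  have hjN : j ≤ N := Nat.le_of_mul_le_mul_right (h.trans (Nat.mul_le_mul_left N hkm)) hm
  have st : ∀ a b : ℕ, a + k ≤ b → a * N / m + j ≤ b * N / m := fun a b hab => by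
    rw [← Nat.add_mul_div_right _ _ hm]
    refine Nat.div_le_div_right ?_
    calc a * N + j * m ≤ a * N + N * k := Nat.add_le_add_left h _
      _ = (a + k) * N := by ring
      _ ≤ b * N := Nat.mul_le_mul_right N hab
  have key : ∀ a b : ℕ, a + k ≤ b → b + k ≤ a + m →
      Disjoint ((range j).image fun x => (a * N / m + x) % N)
        ((range j).image fun x => (b * N / m + x) % N) := fun a b h1 h2 => by
    refine disjoint_left.2 fun z z1 z2 => ?_
    obtain ⟨x, hx, rfl⟩ := mem_image.1 z1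
    obtain ⟨y, hy, e⟩ := mem_image.1 z2
    have h3 := st a b h1
    have h4 := st b (a + m) h2
    rw [add_mul, mul_comm m N, Nat.add_mul_div_right _ _ hm] at h4
    rw [mem_range] at hx hy
    exact mod_ne (by omega) (by omega) e.symm
  refine ⟨fun i => (range j).image fun x => (i * N / m + x) % N, fun i => ⟨?_, fun z hz => ?_⟩,
    fun i l a => a.2.elim (fun a => key i l a.1 a.2) fun a => (key l i a.1 a.2).symm⟩
  · rw [card_image_of_injOn, card_range]
    intro x hx y hy e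
    rw [coe_range, Set.mem_Iio] at hx hy
    rcases lt_trichotomy x y with c | c | c
    · exact absurd e (mod_ne (by omega) (by omega))
    · exact c
    · exact absurd e.symm (mod_ne (by omega) (by omega))
  · obtain ⟨x, -, rfl⟩ := mem_image.1 hz
    exact Nat.mod_lt _ (by omega)

theorem circ_ind {k m : ℕ} (hk : 1 ≤ k) (hm : 2 * k ≤ m) : (circ k m).indepNum ≤ k := by
  obtain ⟨s, hs⟩ := (circ k m).exists_isNIndepSet_indepNum
  rw [← hs.card_eq]
  rcases s.eq_empty_or_nonempty with rfl | hne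
  · simp
  obtain ⟨a, ha, hmin⟩ := exists_min_image s Fin.val hne
  have na : ∀ i ∈ s, ∀ l ∈ s, ¬ (i + k ≤ l ∧ l + k ≤ i + m) := fun i hi l hl h => by
    have h1 : i ≠ l := fun e => by rw [e] at h; omega
    exact hs.isIndepSet hi hl h1 ⟨h1, Or.inl h⟩
  refine (card_le_card_of_injOn (t := range k)
    (fun i : Fin m => if i.1 < a.1 + k then i.1 - a.1 else i.1 + k - (a.1 + m))
    (fun i hi => ?_) fun i hi l hl e => Fin.ext ?_).trans (card_range k).le
  · have := i.2
    rw [coe_range, Set.mem_Iio]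
    beta_reduce
    split_ifs <;> omega
  · have h1 := hmin i hi
    have h2 := hmin l hl
    have h3 := na a ha i hi
    have h4 := na a ha l hl
    have h5 := na i hi l hl
    have h6 := na l hl i hi
    beta_reduce at e
    split_ifs at e <;> omega

theorem circ_conn {k m : ℕ} (hk : 1 ≤ k) (hm : 2 * k < m) : (circ k m).Connected := by
  have ad : ∀ (a b : ℕ) (ha : a < m) (hb : b < m), a + k ≤ b → b + k ≤ a + m →
      (circ k m).Reachable ⟨a, ha⟩ ⟨b, hb⟩ := fun a b ha hb h1 h2 =>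
    SimpleGraph.Adj.reachable ⟨fun e => by have := congrArg Fin.val e; simp at this; omega,
      Or.inl ⟨h1, h2⟩⟩
  have key : ∀ (a : ℕ) (ha : a < m), (circ k m).Reachable ⟨0, by omega⟩ ⟨a, ha⟩ := by
    intro a
    induction a with
    | zero => exact fun _ => .rfl
    | succ a ih =>
      intro ha
      refine (ih (by omega)).trans ?_
      by_cases c : a + 1 + k < m
      · exact (ad a _ _ c (by omega) (by omega)).trans (ad (a + 1) _ _ c le_rfl (by omega)).symm
      · exact (ad (a - k) a (by omega) _ (by omega) (by omega)).symm.trans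
          (ad (a - k) (a + 1) _ _ (by omega) (by omega))
  have : Nonempty (Fin m) := ⟨⟨0, by omega⟩⟩
  exact ⟨fun x y => (key x.1 x.2).symm.trans (key y.1 y.2)⟩

/-- the Kneser graph -/
def kg (N j : ℕ) : SimpleGraph (powersetCard j (range N)) where
  Adj S T := S ≠ T ∧ Disjoint S.1 T.1
  symm := ⟨fun _ _ h => ⟨h.1.symm, h.2.symm⟩⟩
  loopless := ⟨fun _ h => h.1 rfl⟩

theorem kg_fold (N j : ℕ) : Fold (kg N j) j N :=
  ⟨fun S => S.1, fun S => ⟨(mem_powersetCard.1 S.2).2,
    fun _ hx => mem_range.1 ((mem_powersetCard.1 S.2).1 hx)⟩, fun _ _ h => h.2⟩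

theorem kg_adj {N j : ℕ} {S T : powersetCard (j + 1) (range N)} (h : Disjoint S.1 T.1) :
    (kg N (j + 1)).Adj S T := by
  refine ⟨fun e => ?_, h⟩
  have h1 := (mem_powersetCard.1 S.2).2
  rw [← e, disjoint_self_iff_empty] at h
  rw [h] at h1
  simp at h1

theorem kg_col {N j t : ℕ} (h : (kg N (j + 1)).Colorable t) : N ≤ 2 * j + t := by
  obtain ⟨C⟩ := h
  refine Kn.kneser N j t
    (fun S => if h : S ∈ powersetCard (j + 1) (range N) then (C ⟨S, h⟩ : ℕ) else 0)
    (fun S h1 h2 => ?_) fun S T h1 h2 h3 h4 h5 => ?_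
  · rw [dif_pos (mem_powersetCard.2 ⟨h1, h2⟩)]
    exact Fin.is_lt _
  · rw [dif_pos (mem_powersetCard.2 ⟨h1, h3⟩), dif_pos (mem_powersetCard.2 ⟨h2, h4⟩)]
    exact fun e => C.valid (kg_adj h5) (Fin.ext e)

theorem kg_conn {N j : ℕ} (h : 2 * j + 3 ≤ N) : (kg N (j + 1)).Connected := by
  have key : ∀ (n : ℕ) (S T : powersetCard (j + 1) (range N)), #(S.1 \ T.1) = n →
      (kg N (j + 1)).Reachable S T := by
    intro n
    induction n with
    | zero =>
      intro S T e
      rw [Subtype.ext (eq_of_subset_of_card_le (sdiff_eq_empty_iff_subset.1 (card_eq_zero.1 e))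
        ((mem_powersetCard.1 T.2).2.trans (mem_powersetCard.1 S.2).2.symm).le)]
    | succ n ih =>
      intro S T e
      obtain ⟨s1, s2⟩ := mem_powersetCard.1 S.2
      obtain ⟨t1, t2⟩ := mem_powersetCard.1 T.2
      obtain ⟨x, hx⟩ := card_pos.1 (show 0 < #(S.1 \ T.1) by omega)
      obtain ⟨y, hy⟩ := card_pos.1 (show 0 < #(T.1 \ S.1) by
        rw [card_sdiff_comm (t2.trans s2.symm)]; omega)
      obtain ⟨x1, x2⟩ := mem_sdiff.1 hx
      obtain ⟨y1, y2⟩ := mem_sdiff.1 hy
      have c1 := card_erase_add_one x1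
      have m1 : insert y (S.1.erase x) ∈ powersetCard (j + 1) (range N) :=
        mem_powersetCard.2 ⟨insert_subset (t1 y1) ((erase_subset _ _).trans s1), by
          rw [card_insert_of_notMem fun h => y2 (mem_of_mem_erase h)]; omega⟩
      obtain ⟨R, r1, r2⟩ := exists_subset_card_eq (s := range N \ insert y S.1) (n := j + 1) (by
        have := le_card_sdiff (insert y S.1) (range N)
        rw [card_range, card_insert_of_notMem y2] at this
        omega)
      have m2 : R ∈ powersetCard (j + 1) (range N) :=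
        mem_powersetCard.2 ⟨r1.trans sdiff_subset, r2⟩
      have d : Disjoint R (insert y S.1) := disjoint_left.2 fun z hz => (mem_sdiff.1 (r1 hz)).2
      refine (kg_adj (S := ⟨R, m2⟩) (d.mono_right (subset_insert _ _))).symm.reachable.trans
        ((kg_adj (S := ⟨R, m2⟩) (T := ⟨_, m1⟩)
          (d.mono_right (insert_subset_insert _ (erase_subset _ _)))).reachable.trans (ih _ _ ?_))
      have c2 := card_erase_add_one hx
      show #(insert y (S.1.erase x) \ T.1) = n
      rw [insert_sdiff_of_mem _ y1, erase_sdiff_comm]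
      omega
  obtain ⟨S, hS⟩ := powersetCard_nonempty.2 (show j + 1 ≤ #(range N) by rw [card_range]; omega)
  have : Nonempty (powersetCard (j + 1) (range N)) := ⟨⟨S, hS⟩⟩
  exact ⟨fun S T => key _ S T rfl⟩

theorem lower {k m d : ℕ} (hk : 1 ≤ k) (hm : 2 * k ≤ m)
    (hd : d + ⌈(m : ℚ) / k⌉₊ + 2 * k ≤ m + 2) :
    ∃ (V : Type) (_ : Fintype V) (G : SimpleGraph V), G.Connected ∧ Saturated G k ∧ chi G k = m ∧
      chi G (k + 1) = m + ⌈(m : ℚ) / k⌉₊ ∧ G.chromaticNumber = (⌈(m : ℚ) / k⌉₊ + d : ℕ) := by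
  have hq : m ≤ ⌈(m : ℚ) / k⌉₊ * k := (ceil_le hk).1 le_rfl
  rcases hm.eq_or_lt with rfl | hm'
  · have h2 : 2 ≤ ⌈((2 * k : ℕ) : ℚ) / k⌉₊ := Nat.le_of_mul_le_mul_right hq hk
    have a : (circ 1 2).Adj 0 1 := ⟨by decide, Or.inl (by decide)⟩
    refine ⟨Fin 2, inferInstance, circ 1 2, ⟨fun x y => ?_⟩, pack hk ?_
      (circ_fold hk (by omega) (by omega) (by omega))
      (circ_fold (by omega) (by omega) (by omega) (by omega))
      (circ_fold le_rfl (by omega) (by omega) (by omega)) fun t ⟨C⟩ => ?_⟩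
    · fin_cases x <;> fin_cases y
      · exact .rfl
      · exact a.reachable
      · exact a.symm.reachable
      · exact .rfl
    · have := circ_ind (k := 1) (m := 2) le_rfl le_rfl
      rw [Fintype.card_fin]
      nlinarith
    · have h3 : (C 0 : ℕ) ≠ C 1 := fun e => C.valid a (Fin.ext e)
      have h4 := (C 0).2
      have h5 := (C 1).2
      omega
  · have h3 : 3 ≤ ⌈(m : ℚ) / k⌉₊ := by
      by_contra h3
      have := Nat.mul_le_mul_right k (show ⌈(m : ℚ) / k⌉₊ ≤ 2 by omega)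
      omega
    obtain ⟨q, hq'⟩ : ∃ q, ⌈(m : ℚ) / k⌉₊ = q := ⟨_, rfl⟩
    rw [hq'] at hd hq h3
    have c1 := kg_conn (N := q + d + 2 * k) (j := k) (by omega)
    have c2 := glue_conn (r := (⟨0, by omega⟩ : Fin m)) c1 (circ_conn hk hm')
    have := c2.nonempty
    have f0 := kg_fold (q + d + 2 * k) (k + 1)
    have f1 := f0.mono (N' := m + 2) (by omega)
    have f2 := f0.mono (N' := m + q) (by omega)
    have f3 : Fold (kg (q + d + 2 * k) (k + 1)) 1 (q + d) :=
      stahl_iter (by omega) k (by rwa [add_comm 1 k])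
    have f4 : Fold (circ k m) (k + 1) (m + q) :=
      circ_fold (by omega) (by omega) (by omega) (by nlinarith)
    have f5 : Fold (circ k m) 1 (q + d) := circ_fold le_rfl (by omega) (by omega) (by nlinarith)
    subst hq'
    refine ⟨_, inferInstance, _, c2, pack hk ?_
      (glue_fold (stahl (by omega) f1) (circ_fold hk (by omega) (by omega) (mul_comm k m).le))
      (glue_fold f2 f4) (glue_fold f3 f5) fun t h => ?_⟩
    · rw [Fintype.card_prod, Fintype.card_fin]
      calc m * _ ≤ m * (_ * k) := Nat.mul_le_mul_left m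
            (glue_ind.trans (Nat.mul_le_mul_left _ (circ_ind hk hm)))
        _ = _ := by ring
    · have := kg_col (glue_col h)
      omega

end Pool.Agent.MP_6b5009_co.Sp
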